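import Pool.Agent.N60.ZG.CNT
import Pool.Agent.N60.ZG.COMB
import Pool.Agent.N60.ZG.PIG
import Pool.Agent.N60.ZG.IND
import Pool.Agent.N60.ZG.INC
import Pool.Agent.N60.ZG.APPM

/-!
# The gcd recursion with `n (n + 2m)`: the gaps between the zeros

After a zero `n` the value is `V(n+1) = (n+1)(n+2m+1)`, and the gcds which are subtracted can be of the size of the value, so that a
priori only `n' - n ≥ c log n` is clear for the next zero `n'`. Here `n' - n ≥ c (log n)^2` is proved, with an absolute constant, and
hence the number of the zeros up to `X` is at most `C X / (log X)^2`, which would follow by the sieve from part (i) of the question.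

Proof. Let `g, g'` be the gcds at the steps `k < k'`, `μ = V(k)/g`, `μ' = V(k')/g'`, and let `σ` be the sum of the gcds in between.
Then `μ μ' σ` is a multiple of `V(k)`, plus a small positive term, so that `V(k) ≤ μ μ' (σ + V(k') - V(k))`: between two large gcds the
others add up to at least `g g' / (4 V)`. If one of them has at least this size, then the Farey tree of pairs of natural numbers
appears; if not, there are many of them at some scale `b^s` below, more than `162 (1+s)^3`, and then the sum of the numbers of the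
coprime pairs for the gaps between them is at least as large.
-/

set_option autoImplicit false

namespace Pool.Agent.Results.MP_9227d9_nt.ZeroGaps

open Pool.Agent.N60.ZG

/-- There are absolute constants `c > 0` and `C` such that for all `m ≥ 1` and the recursion `a` of the problem: (1) any two zeros
`n < n'` of `a` satisfy `n' - n ≥ c (log n)²`; (2) for all `X ≥ 2` the number of the zeros `n ≤ X` is at most `C X / (log X)²`. -/
theorem result : ∃ c C : ℝ, 0 < c ∧ ∀ m : ℕ, 1 ≤ m → ∀ a : ℕ → ℤ, a 1 = 4 * (m : ℤ) ^ 2 →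
      (∀ n : ℕ, 2 ≤ n →
        a n = |a (n - 1) - ((Int.gcd (a (n - 1)) ((n : ℤ) * ((n : ℤ) + 2 * (m : ℤ)))) : ℤ)|) →
      (∀ n n' : ℕ, 1 ≤ n → n < n' → a n = 0 → a n' = 0 → c * (Real.log n) ^ 2 ≤ (n' : ℝ) - n) ∧
      ∀ X : ℕ, 2 ≤ X → ({n : ℕ | 1 ≤ n ∧ n ≤ X ∧ a n = 0}.ncard : ℝ) ≤ C * (X / (Real.log X) ^ 2) := by
  obtain ⟨c, hc, h⟩ := appm_main inc_main
    (main' diag_main comb_main pig_main ind_main)
  obtain ⟨C, hC, hcount⟩ := count c hc 0
  refine ⟨c, C, hc, fun m hm a ha1 ha => ⟨h m hm a ha1 ha, ?_⟩⟩
  exact hcount (fun n => a n = 0) (fun n n' _ h1 h2 h3 h4 => h m hm a ha1 ha n n' h1 h2 h3 h4)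

end Pool.Agent.Results.MP_9227d9_nt.ZeroGaps
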